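import Pool.Agent.K4H83.FM.Low

/-!
# MP_f5d5f4_nt: 100% of the pairs of `p`-congruent elliptic curves, `p ≥ 13`, are isomorphic

Let `𝓔(X)` be the set of all elliptic curves over `ℚ` of height at most `X` (up to isomorphism, given
by their minimal equations `y² = x³ + Ax + B`; the height is `max (4|A|³, 27B²)`). It has between
`c X ^ (5/6)` and `C X ^ (5/6)` elements. Call `E` and `E'` congruent if they are `p`-congruent for
some prime `p ≥ 13`; each curve is congruent to itself.

**Theorem.** The number of pairs of congruent curves of `𝓔(X)` is equal to the number of curves of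
`𝓔(X)`, up to an error `O(X ^ 0.83)`: at most `C X ^ 0.83` pairs of NON-isomorphic curves of `𝓔(X)` are
`p`-congruent for some prime `p ≥ 13`. So among all pairs of congruent curves, ordered by the height,
100% consist of two isomorphic curves.

All primes `p ≥ 13` (so all primes of the uniform Frey-Mazur conjecture, and those of the conjecture of
Frey and Mazur) are treated at once, also those dividing discriminants, and all pairs of curves.

Proof. Let `D`, `D'` be the discriminants, `P` the product of the primes `q ≥ 5` dividing `D` exactly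
once, and suppose `E[p] ≅ E'[p]`.
* `P ∣ D'` and `P' ∣ D` (local theorem of helper673); a prime `q > 145` dividing only one of `D`, `D'`
  divides it at least `13` times (also `q = p`; local theorems of helper673 and helper56); and if `E`
  and `E'` have the same invariant and `P > 1` then `E ≅ E'` (helper56).
* Let `X = T ^ 6`. The pairs with `P ≥ T ^ (6 - δ)` or `P' ≥ T ^ (6 - δ)`: then `k D' = m D` with
  `k, m = O(T ^ δ)`, for given `k, m, A, A'` a Pell equation for `B, B'`, with few solutions (helper275 and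
  others), in all `O(T ^ (4 + 3δ + ε))` pairs.
* The other pairs: for given `D` there are `O(T ^ ε (T ^ 6 / P) ^ (1/13))` possibilities for `D'`, since
  the primes of `D'` divide `145! D R` with `P R ^ 13 ≤ 31 T ^ 6`, and conversely. So the number of
  these pairs is at most a constant times the sum of `T ^ ε (T ^ 6 / P) ^ (1/13) r(D)` over all `E` with
  `P < T ^ (6 - δ)`, `r(D)` the number of curves with the discriminant `D`, which is `2` in the mean.
* The number of `E` with `P ≤ T ^ 6 / V` is `O(T ^ (5 + ε) V ^ (-2/13) + T ^ (17/4 + ε))`: otherwise `D`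
  is small or divisible by `h²` for a large `h`; for given `h ≤ T ^ (9/4)` one counts the solutions of
  `4A³ + 27B² ≡ 0` modulo `h²`, and for `h > T ^ (9/4)` those of the Pell equation `4A³ + 27B² = k h²`.
-/

set_option autoImplicit false

open WeierstrassCurve Filter Topology
open scoped Classical

namespace Pool.Agent.Results.MP_f5d5f4_nt.CongruentPairsAreIsomorphic

/-- The curve `y² = x³ + Ax + B` over `ℚ`. -/
def curve (A B : ℤ) : WeierstrassCurve ℚ := ⟨0, 0, 0, A, B⟩

/-- The group of its points over the algebraic closure of `ℚ`. -/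
abbrev Points (A B : ℤ) : Type := ((curve A B).baseChange (AlgebraicClosure ℚ)).toAffine.Point

/-- The action of an automorphism `σ` of the algebraic closure on the points. -/
noncomputable def galois (A B : ℤ) (σ : AlgebraicClosure ℚ ≃ₐ[ℚ] AlgebraicClosure ℚ) :
    Points A B →+ Points A B :=
  WeierstrassCurve.Affine.Point.map
    (σ : AlgebraicClosure ℚ →ₐ[ℚ] AlgebraicClosure ℚ)

/-- The curves `y² = x³ + Ax + B` and `y² = x³ + A'x + B'` are `p`-congruent: some map between the
groups of points restricts to a bijective additive map between the groups of points killed by `p`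
which commutes with the Galois group. -/
def Congruent (p : ℕ) (A B A' B' : ℤ) : Prop :=
  ∃ f : Points A B → Points A' B', (∀ P Q, p • P = 0 → p • Q = 0 → f (P + Q) = f P + f Q) ∧
    Set.BijOn f {P | p • P = 0} {Q | p • Q = 0} ∧
    ∀ (σ : AlgebraicClosure ℚ ≃ₐ[ℚ] AlgebraicClosure ℚ) (P : Points A B), p • P = 0 →
      f (galois A B σ P) = galois A' B' σ (f P)

/-- The height of `y² = x³ + Ax + B`. -/
def height (A B : ℤ) : ℤ := max (4 * |A| ^ 3) (27 * B ^ 2)

/-- The equation `y² = x³ + Ax + B` is minimal: no prime `q` satisfies `q⁴ ∣ A` and `q⁶ ∣ B`. Every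
elliptic curve over `ℚ` has exactly one minimal equation of this form. -/
def Minimal (A B : ℤ) : Prop := ∀ q : ℕ, q.Prime → (q : ℤ) ^ 4 ∣ A → ¬ (q : ℤ) ^ 6 ∣ B

/-- The elliptic curves over `ℚ` of height at most `X`, given by their minimal equations. -/
def Curves (X : ℝ) : Set (ℤ × ℤ) :=
  {E | 4 * E.1 ^ 3 + 27 * E.2 ^ 2 ≠ 0 ∧ Minimal E.1 E.2 ∧ (height E.1 E.2 : ℝ) ≤ X}

/-- The pairs of elliptic curves over `ℚ` of height at most `X` which are `p`-congruent for some prime
`p ≥ 13`. -/
def CongruentPairs (X : ℝ) : Set ((ℤ × ℤ) × (ℤ × ℤ)) :=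
  {z | z.1 ∈ Curves X ∧ z.2 ∈ Curves X ∧
    ∃ p : ℕ, p.Prime ∧ 13 ≤ p ∧ Congruent p z.1.1 z.1.2 z.2.1 z.2.2}

theorem refl (E : ℤ × ℤ) : Congruent 13 E.1 E.2 E.1 E.2 :=
  ⟨id, fun _ _ _ _ => rfl, Set.bijOn_id _, fun _ _ _ => rfl⟩

theorem diag_le {X : ℝ} (hX : 4 ≤ X) :
    (CongruentPairs X).Finite ∧ {z | z ∈ CongruentPairs X ∧ z.1 = z.2}.ncard = (Curves X).ncard ∧
      (Curves X).ncard ≤ (CongruentPairs X).ncard := by
  have hfin : (Curves X).Finite := Pool.Agent.K4H83.FM.EX_fin hX
  have hfin2 : (CongruentPairs X).Finite :=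
    (hfin.prod hfin).subset fun z hz => ⟨hz.1, hz.2.1⟩
  have h1 : {z | z ∈ CongruentPairs X ∧ z.1 = z.2} = (fun E => (E, E)) '' Curves X := by
    ext z
    constructor
    · rintro ⟨h, he⟩
      exact ⟨z.1, h.1, Prod.ext rfl he⟩
    · rintro ⟨E, hE, rfl⟩
      exact ⟨⟨hE, hE, 13, by norm_num, le_rfl, refl E⟩, rfl⟩
  have h2 : ((fun E : ℤ × ℤ => (E, E)) '' Curves X).ncard = (Curves X).ncard :=
    Set.ncard_image_of_injective _ fun x y h => congrArg Prod.fst h
  refine ⟨hfin2, by rw [h1, h2], ?_⟩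
  rw [← h2, ← h1]
  exact Set.ncard_le_ncard (fun z hz => hz.1) hfin2

/-- **100% of the pairs of congruent curves are isomorphic.** The number of elliptic curves over `ℚ` of
height at most `X` is of order `X ^ (5/6)`; at most `C X ^ 0.83` pairs of different ones are
`p`-congruent for some prime `p ≥ 13`; so the number of all congruent pairs is asymptotic to the number
of curves. -/
theorem result : ∃ c C : ℝ, 0 < c ∧
    (∀ X : ℝ, 4 ≤ X → c * X ^ (5 / 6 : ℝ) ≤ ((Curves X).ncard : ℝ) ∧
      ((Curves X).ncard : ℝ) ≤ C * X ^ (5 / 6 : ℝ)) ∧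
    (∀ X : ℝ, 4 ≤ X →
      (({z | z ∈ CongruentPairs X ∧ z.1 ≠ z.2}.ncard : ℕ) : ℝ) ≤ C * X ^ (0.83 : ℝ)) ∧
    Tendsto (fun X : ℝ => ((CongruentPairs X).ncard : ℝ) / ((Curves X).ncard : ℝ)) atTop (𝓝 1) := by
  obtain ⟨C₀, hC₀, h⟩ := Pool.Agent.K4H83.FM.card_good (Nat.factorial 145)
    (Nat.factorial_pos 145)
  have hmain : ∀ X : ℝ, 4 ≤ X →
      (({z | z ∈ CongruentPairs X ∧ z.1 ≠ z.2}.ncard : ℕ) : ℝ) ≤ 32 * C₀ * X ^ (0.83 : ℝ) := by
    intro X hX
    have hX0 : 0 < X := by linarith
    obtain ⟨T, hT2, hT, hbx⟩ := Pool.Agent.K4H83.FM.EX_sub hX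
    have hfin : {z | z ∈ CongruentPairs X ∧ z.1 ≠ z.2}.Finite :=
      (diag_le hX).1.subset fun z hz => hz.1
    rw [Set.ncard_eq_toFinset_card _ hfin]
    refine (h T hT2 hfin.toFinset ?_).trans ?_
    · intro z hz
      rw [Set.Finite.mem_toFinset] at hz
      obtain ⟨⟨h1, h2, p, hp, h13, f, g1, g2, g3⟩, hne⟩ := hz
      exact Pool.Agent.K4H83.FM.good_of (p := p) ⟨f, ⟨g1, g2, g3⟩⟩ hp h13 (hbx _ h1) (hbx _ h2)
        h1.1 h2.1 h1.2.1 h2.2.1 hne
    · have hT0 : (0 : ℝ) ≤ T := Nat.cast_nonneg _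
      have h1 : (T : ℝ) ^ (4.98 : ℝ) ≤ (2 * X ^ (1 / 6 : ℝ)) ^ (4.98 : ℝ) :=
        Real.rpow_le_rpow hT0 hT (by norm_num)
      have h2 : (2 * X ^ (1 / 6 : ℝ)) ^ (4.98 : ℝ) = 2 ^ (4.98 : ℝ) * X ^ (0.83 : ℝ) := by
        rw [Real.mul_rpow (by norm_num) (by positivity), ← Real.rpow_mul hX0.le]
        norm_num
      have h3 : (2 : ℝ) ^ (4.98 : ℝ) ≤ 32 := by
        calc (2 : ℝ) ^ (4.98 : ℝ) ≤ (2 : ℝ) ^ (5 : ℝ) :=
              Real.rpow_le_rpow_of_exponent_le (by norm_num) (by norm_num)
          _ = 32 := by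
              have : (2 : ℝ) ^ (5 : ℝ) = (2 : ℝ) ^ (5 : ℕ) := by
                rw [← Real.rpow_natCast]
                norm_num
              rw [this]
              norm_num
      calc C₀ * (T : ℝ) ^ (4.98 : ℝ) ≤ C₀ * (2 ^ (4.98 : ℝ) * X ^ (0.83 : ℝ)) := by
            rw [← h2]
            gcongr
        _ ≤ C₀ * (32 * X ^ (0.83 : ℝ)) := by gcongr
        _ = _ := by ring
  refine ⟨1 / 24, max 288 (32 * C₀), by norm_num, fun X hX => ⟨Pool.Agent.K4H83.FM.EX_lower hX, ?_⟩,
    fun X hX => ?_, ?_⟩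
  · refine (Pool.Agent.K4H83.FM.EX_upper hX).trans ?_
    exact mul_le_mul_of_nonneg_right (le_max_left _ _) (Real.rpow_nonneg (by linarith) _)
  · refine (hmain X hX).trans ?_
    exact mul_le_mul_of_nonneg_right (le_max_right _ _) (Real.rpow_nonneg (by linarith) _)
  · -- the limit
    have hlim : Tendsto (fun X : ℝ => 1 + 768 * C₀ * X ^ (-(1 / 300) : ℝ)) atTop (𝓝 1) := by
      have h1 := (tendsto_rpow_neg_atTop (by norm_num : (0 : ℝ) < 1 / 300)).const_mul (768 * C₀)
      have h2 := h1.const_add 1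
      simpa using h2
    refine tendsto_of_tendsto_of_tendsto_of_le_of_le' tendsto_const_nhds hlim ?_ ?_
    · filter_upwards [eventually_ge_atTop 4] with X hX
      have hX0 : 0 < X := by linarith
      have h1 : 0 < ((Curves X).ncard : ℝ) :=
        lt_of_lt_of_le (by positivity) (Pool.Agent.K4H83.FM.EX_lower hX)
      rw [le_div_iff₀ h1, one_mul]
      exact_mod_cast (diag_le hX).2.2
    · filter_upwards [eventually_ge_atTop 4] with X hX
      have hX0 : 0 < X := by linarith
      have h0 := Pool.Agent.K4H83.FM.EX_lower hX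
      have h1 : 0 < ((Curves X).ncard : ℝ) := lt_of_lt_of_le (by positivity) h0
      rw [div_le_iff₀ h1]
      have h2 : (CongruentPairs X).ncard ≤ (Curves X).ncard +
          {z | z ∈ CongruentPairs X ∧ z.1 ≠ z.2}.ncard := by
        rw [← (diag_le hX).2.1]
        refine le_trans (Set.ncard_le_ncard ?_ ?_) (Set.ncard_union_le _ _)
        · intro z hz
          by_cases he : z.1 = z.2
          · exact Or.inl ⟨hz, he⟩
          · exact Or.inr ⟨hz, he⟩
        · exact ((diag_le hX).1.subset fun z hz => hz.1).union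
            ((diag_le hX).1.subset fun z hz => hz.1)
      have h3 : ((CongruentPairs X).ncard : ℝ) ≤ (Curves X).ncard + 32 * C₀ * X ^ (0.83 : ℝ) := by
        have h4 : ((CongruentPairs X).ncard : ℝ) ≤ ((Curves X).ncard : ℝ) +
            (({z | z ∈ CongruentPairs X ∧ z.1 ≠ z.2}.ncard : ℕ) : ℝ) := by exact_mod_cast h2
        have := hmain X hX
        linarith
      have h4 : 32 * C₀ * X ^ (0.83 : ℝ) ≤ 768 * C₀ * X ^ (-(1 / 300) : ℝ) * (Curves X).ncard := by
        have e1 : X ^ (-(1 / 300) : ℝ) * X ^ (5 / 6 : ℝ) = X ^ (0.83 : ℝ) := by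
          rw [← Real.rpow_add hX0]
          norm_num
        calc 32 * C₀ * X ^ (0.83 : ℝ) =
              768 * C₀ * X ^ (-(1 / 300) : ℝ) * (1 / 24 * X ^ (5 / 6 : ℝ)) := by
              rw [← e1]
              ring
          _ ≤ 768 * C₀ * X ^ (-(1 / 300) : ℝ) * (Curves X).ncard := by
              refine mul_le_mul_of_nonneg_left h0 ?_
              positivity
      linarith

end Pool.Agent.Results.MP_f5d5f4_nt.CongruentPairsAreIsomorphic
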