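import Pool.Agent.K4H56.IP.Fin

/-!
# MP_f5d5f4_nt: the number of congruent pairs one member of which is an integer

**Theorem.** Let `D` be a natural number, `P ≥ 13` and `ε > 0`. There is `C` such that for all
`X, Y, B ≥ 1` there are at most

  `C (XY) ^ ε ((XY) ^ (1/3) B ^ (1/P) + X ^ (1/2) + Y ^ (1/2) B ^ (1/P))`

pairs `(a, j')` of an integer `a`, `|a| ≤ X`, and a rational number `j' ≠ a` of height at most `Y` and
with denominator at most `B` for which there are a number field `K` of degree at most `D` and prime to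
`6`, a prime `p ≥ P` larger than `[K : ℚ]`, and elliptic curves over `K` with invariants `a` and `j'`
which are `p`-congruent over `K`.

For `B = 1`, `X = Y`: at most `C X ^ (2/3 + ε)` pairs of different integers `|a|, |a'| ≤ X` are
congruent, out of `4 X ^ 2` pairs; twists give the `2 X + 1` trivial pairs `(a, a)`. For `P = 13` and
`B = Y = X`: at most `C X ^ (0.744)` pairs of an integer `|a| ≤ X` and a rational number `j' ≠ a` of
height at most `X`.

Proof. Let `c = a - 1728`, `j' = a' / b'` in lowest terms, `c' = a' - 1728 b'`. By the local analysis of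
library `JD` the following holds outside a set of few primes: the product `A` of the primes at which `a`
has an order prime to `3`, and the product `C` of the primes at which `c` has an odd order, belong to
`j'` as well. So `a = A s`, `a' = A s'` with `s = σ α u³`, `s' = σ' α' u'³`, where `α`, `α'` divide `A`;
`c = C t`, `c' = C t'`, where `t = τ w²`, `t' = τ' w'²`; and `b' = ρ z ^ p`; `σ`, `σ'`, `τ`, `τ'`, `ρ` are
composed of few primes. The pairs with given dyadic ranges of `|a|`, `A`, `C`, `α`, `α'` are counted in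
three ways, by choosing
* `A` and `s`, then `s'` and `b'`;
* `C` and `t`, then `s'` and `b'` (now `A` is known);
* `s`, `s'` and `b'`. From `A s - C t = 1728` and `A s' - C t' = 1728 b'` one gets
  `A (s' - s b') = C (t' - t b')`, and `A` and `C` are coprime, so `C` divides `s' - s b' ≠ 0`, and there
  are few choices of `C`. Finally `s` divides `C τ w² + 1728`. For a given number `D` the solutions `w` of
  `D w² + 1728 ≡ 0` modulo `n` in `[1, W]` are at most `d(n) (κ W / n + 1)` with an absolute constant `κ`:
  if `w₀` is one of them, `n` divides `1728 (w - w₀) (w + w₀)`, so `w` is determined modulo `n / κ` by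
  the greatest common divisor of `n` and `w - w₀`.
Two of the three bounds or all three of them, with weights `2/3`, `1/3` or `1/3`, `1/3`, `1/3`, have the
geometric mean `(XY) ^ (1/3) B ^ (1/P)` up to `(XY) ^ ε`; in the last case one uses `α A ≤ |a|`. If `a` or
`j'` is `0` or `1728`, the other invariant is an almost cube or differs from `1728` by an almost square.
-/

set_option autoImplicit false

open WeierstrassCurve

namespace Pool.Agent.Results.MP_f5d5f4_nt.IntegralPairCount

section
variable {K : Type} [Field K]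

/-- The curve `y² = x³ + Ax + B` over the field `K`. -/
def curve (A B : K) : WeierstrassCurve K := ⟨0, 0, 0, A, B⟩

/-- Its `j`-invariant. -/
noncomputable def invariant (A B : K) : K := 1728 * (4 * A ^ 3) / (4 * A ^ 3 + 27 * B ^ 2)

open scoped Classical in
/-- The group of its points over the algebraic closure of `K`. -/
abbrev Points (A B : K) : Type := ((curve A B).baseChange (AlgebraicClosure K)).toAffine.Point

open scoped Classical in
/-- The action of an automorphism `σ` of the algebraic closure on the points. -/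
noncomputable def galois (A B : K) (σ : AlgebraicClosure K ≃ₐ[K] AlgebraicClosure K) :
    Points A B →+ Points A B :=
  WeierstrassCurve.Affine.Point.map (σ : AlgebraicClosure K →ₐ[K] AlgebraicClosure K)

open scoped Classical in
/-- The curves `y² = x³ + Ax + B` and `y² = x³ + A'x + B'` are `p`-congruent over `K`: some map between
the groups of points restricts to a bijective additive map between the groups of points killed by `p`
which commutes with the Galois group. -/
def Congruent (p : ℕ) (A B A' B' : K) : Prop :=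
  ∃ f : Points A B → Points A' B', (∀ P Q, p • P = 0 → p • Q = 0 → f (P + Q) = f P + f Q) ∧
    Set.BijOn f {P | p • P = 0} {Q | p • Q = 0} ∧
    ∀ (σ : AlgebraicClosure K ≃ₐ[K] AlgebraicClosure K) (P : Points A B), p • P = 0 →
      f (galois A B σ P) = galois A' B' σ (f P)

end

/-- The height of `j = a / b`, in lowest terms: the maximum of `|a|` and `b`. -/
def height (j : ℚ) : ℕ := max j.num.natAbs j.den

/-- The invariants `j` and `j'` are congruent: there are a number field `K` of degree at most `D` and
prime to `6`, a prime `p ≥ P` larger than the degree, and elliptic curves over `K` with invariants `j`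
and `j'` which are `p`-congruent over `K`. -/
def CongruentInvariants (D P : ℕ) (j j' : ℚ) : Prop :=
  ∃ (K : Type) (_ : Field K) (_ : NumberField K) (p : ℕ) (A B A' B' : K),
    Module.finrank ℚ K ≤ D ∧ (Module.finrank ℚ K).Coprime 6 ∧
    p.Prime ∧ P ≤ p ∧ Module.finrank ℚ K < p ∧
    4 * A ^ 3 + 27 * B ^ 2 ≠ 0 ∧ 4 * A' ^ 3 + 27 * B' ^ 2 ≠ 0 ∧
    invariant A B = (j : K) ∧ invariant A' B' = (j' : K) ∧ Congruent p A B A' B'

/-- The pairs of an integer `|a| ≤ X` and a rational number `j' ≠ a` of height at most `Y` and with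
denominator at most `B` which are congruent. -/
def Pairs (D P X Y B : ℕ) : Set (ℤ × ℚ) :=
  {x | x.2 ≠ (x.1 : ℚ) ∧ x.1.natAbs ≤ X ∧ height x.2 ≤ Y ∧ x.2.den ≤ B ∧
    CongruentInvariants D P (x.1 : ℚ) x.2}

/-- **The number of congruent pairs one member of which is an integer.** -/
theorem result (D P : ℕ) (hP : 13 ≤ P) (ε : ℝ) (hε : 0 < ε) :
    ∃ C : ℝ, ∀ X Y B : ℕ, 1 ≤ X → 1 ≤ Y → 1 ≤ B → (Pairs D P X Y B).Finite ∧
      ((Pairs D P X Y B).ncard : ℝ) ≤ C * ((X : ℝ) * Y) ^ ε *
        (((X : ℝ) * Y) ^ (1 / 3 : ℝ) * (B : ℝ) ^ (1 / (P : ℝ)) + (X : ℝ) ^ (1 / 2 : ℝ) +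
          (Y : ℝ) ^ (1 / 2 : ℝ) * (B : ℝ) ^ (1 / (P : ℝ))) := by
  have hinv : ∀ {K : Type} [Field K] (A B : K), Pool.Agent.Y673.Loc.jv A B = invariant A B := by
    intro K _ A B
    unfold Pool.Agent.Y673.Loc.jv invariant
    ring
  obtain ⟨C, h⟩ := Pool.Agent.K4H56.IP.card_int D P (by omega) hε
  refine ⟨C, fun X Y B hX hY hB => ?_⟩
  have hfin := Pool.Agent.K4H56.IP.QS_finite D P X Y B
  set g : ℤ × ℚ → ℚ × ℚ := fun x => ((x.1 : ℚ), x.2) with hg
  have hinj : Function.Injective g := by
    rintro ⟨a, j⟩ ⟨a', j'⟩ hx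
    simp only [hg, Prod.mk.injEq, Int.cast_inj] at hx
    exact Prod.ext hx.1 hx.2
  have hmaps : ∀ x ∈ Pairs D P X Y B, g x ∈ Pool.Agent.K4H56.IP.QS D P X Y B := by
    rintro ⟨a, j⟩ ⟨h0, h1, h2, h3, K, _, _, p, A, B', A', B'', hD, h6, hp, hPp, hn, hd, hd', hj, hj',
      ⟨f, f1, f2, f3⟩⟩
    refine ⟨fun he => h0 he.symm, Rat.den_intCast a, ?_, h2, h3, K, inferInstance, inferInstance, p,
      A, B', A', B'', hD, h6, hPp, ⟨hd, hd', by rw [hinv, hj], by rw [hinv, hj'], hp,
        hP.trans hPp, hn, ⟨f, f1, f2, f3⟩⟩⟩
    show max (a : ℚ).num.natAbs (a : ℚ).den ≤ X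
    rw [Rat.num_intCast, Rat.den_intCast]
    exact max_le h1 hX
  have hF : (Pairs D P X Y B).Finite :=
    Set.Finite.of_finite_image (hfin.subset (Set.image_subset_iff.2 hmaps)) hinj.injOn
  refine ⟨hF, le_trans ?_ (h X Y B hX hY hB)⟩
  exact_mod_cast Set.ncard_le_ncard_of_injOn g hmaps hinj.injOn hfin

end Pool.Agent.Results.MP_f5d5f4_nt.IntegralPairCount
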