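import Pool.Agent.K4H56.HG.PF

/-!
# MP_f5d5f4_nt: the number of congruent pairs of invariants of bounded height

For `j = a / b` in lowest terms let `H(j) = max (|a|, b)`; about `(12 / π ^ 2) X ^ 2` rational numbers
have height at most `X`.

**Theorem.** For all `D` and `ε > 0` there is `C` such that there are at most `C X ^ (76 / 55 + ε)`
pairs `(j, j')` of different rational numbers of height at most `X` for which there are a number field
`K` of degree at most `D` and prime to `6`, a prime `p ≥ 13` larger than `[K : ℚ]`, and elliptic curves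
over `K` with invariants `j` and `j'` which are `p`-congruent over `K`. In particular, over `ℚ`, all
primes `p ≥ 13` together give at most `C X ^ (1.382)` pairs of different congruent invariants out of
about `(144 / π ^ 4) X ^ 4`, and all but `C X ^ (1.382)` rational numbers of height at most `X` are in
no such pair. (There are at least `c X ^ (2 / 3)` pairs: isogenous curves.)

Proof. Let `j = a / b`, `j' = a' / b'` be such a pair, `c = a - 1728 b`, `c' = a' - 1728 b'`. By a local
analysis (library `JD`: potentially good reduction with inertia of order divisible by `3` or `4`, and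
multiplicative reduction; also at `p`, unless `p` is at most a constant times `log X`) the following
holds. Let `A` be the product of the primes `q ≥ 5` at which `a` has an order prime to `3`, `C` the same
for `c` and odd orders, `B` for `b` and orders at most `12`. Then `A`, `C` belong to `j'` as well, and `B`
divides `b'`. So `a = A s α u³`, `a' = A s' α' u'³` with `α`, `α'` dividing `A`, `c = C s w²`,
`c' = C s' w'²`, `b = B s z ^ 13`, `b' = B s' z' ^ 13`, where the `s` are composed of few primes and
have `X ^ ε` values. The pairs with given dyadic ranges of `A`, `B`, `C`, `α`, `α'` are counted in four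
ways, by choosing
* `a`, `c` and then `a'`, `b'`, or `a`, `b` and then `a'`, `b'`, or `b`, `c` and then `a'`, `b'` (given the
  first invariant, `A` and `B` are known, so there are few `a'` and `b'`);
* the cofactors `a / A`, `a' / A`, `c / C`, `c' / C`; from `a = c + 1728 b`, `a' = c' + 1728 b'` it follows
  that `B` divides `(a / A) (c' / C) - (c / C) (a' / A) ≠ 0`, so they determine `B` up to `X ^ ε` choices,
  then one chooses `b / B` and `b' / B`, and the six cofactors determine `j` and `j'`.
The geometric mean with weights `32 / 55`, `4 / 55`, `2 / 55`, `17 / 55` of the four bounds is at most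
`X ^ (76 / 55 + ε)` in each range. If one of the invariants is `0` or `1728`, the other one is given by an
almost `13`-full `b` and an almost square `c` or an almost cube `a`.
-/

set_option autoImplicit false

open WeierstrassCurve

namespace Pool.Agent.Results.MP_f5d5f4_nt.PairCount

section
variable {K : Type} [Field K]

/-- The curve `y² = x³ + Ax + B` over the field `K`. -/
def curve (A B : K) : WeierstrassCurve K := ⟨0, 0, 0, A, B⟩

/-- Its `j`-invariant. -/
noncomputable def invariant (A B : K) : K := 1728 * (4 * A ^ 3) / (4 * A ^ 3 + 27 * B ^ 2)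

open scoped Classical in
/-- The group of its points over the algebraic closure of `K`. -/
abbrev Points (A B : K) : Type := ((curve A B).baseChange (AlgebraicClosure K)).toAffine.Point

open scoped Classical in
/-- The action of an automorphism `σ` of the algebraic closure on the points. -/
noncomputable def galois (A B : K) (σ : AlgebraicClosure K ≃ₐ[K] AlgebraicClosure K) :
    Points A B →+ Points A B :=
  WeierstrassCurve.Affine.Point.map (σ : AlgebraicClosure K →ₐ[K] AlgebraicClosure K)

open scoped Classical in
/-- The curves `y² = x³ + Ax + B` and `y² = x³ + A'x + B'` are `p`-congruent over `K`: some map between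
the groups of points restricts to a bijective additive map between the groups of points killed by `p`
which commutes with the Galois group. -/
def Congruent (p : ℕ) (A B A' B' : K) : Prop :=
  ∃ f : Points A B → Points A' B', (∀ P Q, p • P = 0 → p • Q = 0 → f (P + Q) = f P + f Q) ∧
    Set.BijOn f {P | p • P = 0} {Q | p • Q = 0} ∧
    ∀ (σ : AlgebraicClosure K ≃ₐ[K] AlgebraicClosure K) (P : Points A B), p • P = 0 →
      f (galois A B σ P) = galois A' B' σ (f P)

end

/-- The height of `j = a / b`, in lowest terms: the maximum of `|a|` and `b`. -/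
def height (j : ℚ) : ℕ := max j.num.natAbs j.den

/-- The invariants `j` and `j'` are congruent: there are a number field `K` of degree at most `D` and
prime to `6`, a prime `p ≥ 13` larger than the degree, and elliptic curves over `K` with invariants `j`
and `j'` which are `p`-congruent over `K`. -/
def CongruentInvariants (D : ℕ) (j j' : ℚ) : Prop :=
  ∃ (K : Type) (_ : Field K) (_ : NumberField K) (p : ℕ) (A B A' B' : K),
    Module.finrank ℚ K ≤ D ∧ (Module.finrank ℚ K).Coprime 6 ∧
    p.Prime ∧ 13 ≤ p ∧ Module.finrank ℚ K < p ∧
    4 * A ^ 3 + 27 * B ^ 2 ≠ 0 ∧ 4 * A' ^ 3 + 27 * B' ^ 2 ≠ 0 ∧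
    invariant A B = (j : K) ∧ invariant A' B' = (j' : K) ∧ Congruent p A B A' B'

/-- **The number of congruent pairs.** For every `ε > 0` there are at most `C X ^ (76 / 55 + ε)` pairs of
different congruent rational invariants of height at most `X`. -/
theorem result (D : ℕ) (ε : ℝ) (hε : 0 < ε) : ∃ C : ℝ, ∀ X : ℕ, 1 ≤ X →
    {x : ℚ × ℚ | x.1 ≠ x.2 ∧ height x.1 ≤ X ∧ height x.2 ≤ X ∧
      CongruentInvariants D x.1 x.2}.Finite ∧
    (({x : ℚ × ℚ | x.1 ≠ x.2 ∧ height x.1 ≤ X ∧ height x.2 ≤ X ∧
      CongruentInvariants D x.1 x.2}.ncard : ℕ) : ℝ) ≤ C * (X : ℝ) ^ (76 / 55 + ε) := by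
  have hinv : ∀ {K : Type} [Field K] (A B : K), Pool.Agent.Y673.Loc.jv A B = invariant A B := by
    intro K _ A B
    unfold Pool.Agent.Y673.Loc.jv invariant
    ring
  obtain ⟨C, h⟩ := Pool.Agent.K4H56.HG.card_pairs D hε
  refine ⟨C, fun X hX => ?_⟩
  have hfin := Pool.Agent.K4H56.HG.PS_finite D 13 X X
  have hsub : {x : ℚ × ℚ | x.1 ≠ x.2 ∧ height x.1 ≤ X ∧ height x.2 ≤ X ∧
      CongruentInvariants D x.1 x.2} ⊆ Pool.Agent.K4H56.HG.PS D 13 X X := by
    rintro x ⟨h0, h1, h2, K, _, _, p, A, B, A', B', hD, h6, hp, h13, hn, hd, hd', hj, hj',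
      ⟨f, f1, f2, f3⟩⟩
    exact ⟨h0, h1, h2, K, _, _, p, A, B, A', B', hD, h6, h13,
      ⟨hd, hd', by rw [hinv, hj], by rw [hinv, hj'], hp, h13, hn, ⟨f, f1, f2, f3⟩⟩⟩
  exact ⟨hfin.subset hsub, le_trans (Nat.cast_le.2 (Set.ncard_le_ncard hsub hfin)) (h X hX)⟩

end Pool.Agent.Results.MP_f5d5f4_nt.PairCount
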